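import Mathlib
import Pool.Agent.Y669.TA.WPU

/-!
A finitely generated right reversible cancellative monoid whose group of right quotients has
solvable word problem, but in which the membership problem of the monoid is undecidable.
-/

namespace Pool.Agent.Results.MP_91a774_al.UndecidableMembership

/-- `P` is right reversible: `aP ∩ bP ≠ ∅` for all `a, b`. -/
def RightReversible (P : Type) [Monoid P] : Prop := ∀ a b : P, ∃ c d : P, a * c = b * d

/-- `G` is, via the homomorphism `ι : P → G`, the group of right quotients of `P`: `ι` is injective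
and every element of `G` has the form `ι p (ι q)⁻¹`. -/
def IsGroupOfRightQuotients {P G : Type} [Monoid P] [Group G] (ι : P →* G) : Prop :=
  Function.Injective ι ∧ ∀ g : G, ∃ p q : P, g = ι p * (ι q)⁻¹

/-- The element of `G` represented by a word over `X ∪ X⁻¹`, `X = {x_0, …, x_{k-1}}`; the letter
`(i, true)` stands for `x_i` and `(i, false)` for `x_i⁻¹`. -/
def value {G : Type} [Group G] {k : ℕ} (x : Fin k → G) (w : List (Fin k × Bool)) : G :=
  (w.map fun a => if a.2 then x a.1 else (x a.1)⁻¹).prod

/-! ### Reduced words -/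

section Red

variable {n : ℕ}

/-- one step of the reduction -/
def redStep (x : Fin n × Bool) (ih : List (Fin n × Bool)) : List (Fin n × Bool) :=
  List.casesOn ih [x] fun hd tl => if x.1 = hd.1 ∧ x.2 = not hd.2 then tl else x :: hd :: tl

theorem reduce_eq_foldr (l : List (Fin n × Bool)) :
    FreeGroup.reduce l = l.foldr (fun b s => redStep b s) [] := by
  induction l with
  | nil => rfl
  | cons x l ih =>
    rw [List.foldr_cons, ← ih]
    rfl

theorem primrec_redStep : Primrec₂ (redStep (n := n)) := by
  unfold redStep
  refine Primrec.list_casesOn (f := fun p : (Fin n × Bool) × List (Fin n × Bool) => p.2)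
    (g := fun p => [p.1])
    (h := fun (p : (Fin n × Bool) × List (Fin n × Bool)) (q : (Fin n × Bool) × List (Fin n × Bool)) =>
      if p.1.1 = q.1.1 ∧ p.1.2 = not q.1.2 then q.2 else p.1 :: q.1 :: q.2) Primrec.snd ?_ ?_
  · exact Primrec.list_cons.comp Primrec.fst (Primrec.const [])
  · refine Primrec.ite ?_ ?_ ?_
    · refine PrimrecPred.and ?_ ?_
      · exact Primrec.eq.comp (Primrec.fst.comp (Primrec.fst.comp Primrec.fst))
          (Primrec.fst.comp (Primrec.fst.comp Primrec.snd))
      · exact Primrec.eq.comp (Primrec.snd.comp (Primrec.fst.comp Primrec.fst))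
          (Primrec.not.comp (Primrec.snd.comp (Primrec.fst.comp Primrec.snd)))
    · exact Primrec.snd.comp Primrec.snd
    · exact Primrec.list_cons.comp (Primrec.fst.comp Primrec.fst)
        (Primrec.list_cons.comp (Primrec.fst.comp Primrec.snd) (Primrec.snd.comp Primrec.snd))

theorem primrec_reduce : Primrec (FreeGroup.reduce : List (Fin n × Bool) → List (Fin n × Bool)) := by
  refine (Primrec.list_foldr (f := fun l : List (Fin n × Bool) => l)
    (g := fun _ => ([] : List (Fin n × Bool)))
    (h := fun _ p => redStep p.1 p.2) Primrec.id (Primrec.const []) ?_).of_eq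
      (fun l => (reduce_eq_foldr l).symm)
  exact primrec_redStep.comp (Primrec.fst.comp Primrec.snd) (Primrec.snd.comp Primrec.snd)

theorem mk_eq_one_iff (l : List (Fin n × Bool)) : FreeGroup.mk l = 1 ↔ FreeGroup.reduce l = [] := by
  rw [← FreeGroup.toWord_inj, FreeGroup.toWord_mk, FreeGroup.toWord_one]

end Red

/-! ### The groups -/

section Main

variable (m : ℕ) (R : Finset (FreeGroup (Fin m)))

/-- the group of right quotients -/
abbrev G : Type := (FreeGroup (Fin m) × FreeGroup (Fin m)) × Multiplicative ℤ

/-- the names of the generators -/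
abbrev Idx : Type := ((Fin m × Bool) ⊕ (R × Bool)) ⊕ ((Fin m × Bool) ⊕ Unit)

/-- `x` or `x⁻¹` -/
def sg {H : Type} [Group H] (x : H) (b : Bool) : H := if b then x else x⁻¹

/-- the generators of `P` -/
def gens : Idx m R → G m
  | Sum.inl (Sum.inl a) => ((sg (FreeGroup.of a.1) a.2, sg (FreeGroup.of a.1) a.2), 1)
  | Sum.inl (Sum.inr r) => ((sg (r.1 : FreeGroup (Fin m)) r.2, 1), 1)
  | Sum.inr (Sum.inl a) => ((sg (FreeGroup.of a.1) a.2, 1), Multiplicative.ofAdd 1)
  | Sum.inr (Sum.inr _) => (1, Multiplicative.ofAdd 1)

/-- the monoid, as a submonoid of the group -/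
def PM : Submonoid (G m) := Submonoid.closure (Set.range (gens m R))

/-- the relators -/
abbrev N : Subgroup (FreeGroup (Fin m)) := Subgroup.normalClosure (R : Set (FreeGroup (Fin m)))

theorem gens_mem (i : Idx m R) : gens m R i ∈ PM m R := Submonoid.subset_closure ⟨i, rfl⟩

/-- elements of level zero lie in the fiber product -/
theorem level (g : G m) (hg : g ∈ PM m R) :
    0 ≤ Multiplicative.toAdd g.2 ∧ (Multiplicative.toAdd g.2 = 0 →
      (QuotientGroup.mk g.1.1 : FreeGroup (Fin m) ⧸ N m R) = QuotientGroup.mk g.1.2) := by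
  unfold PM at hg
  induction hg using Submonoid.closure_induction with
  | mem g hg =>
    obtain ⟨i, rfl⟩ := hg
    rcases i with (a | r) | (a | _)
    · exact ⟨le_refl _, fun _ => rfl⟩
    · refine ⟨le_refl _, fun _ => ?_⟩
      have hr : (r.1 : FreeGroup (Fin m)) ∈ N m R := Subgroup.subset_normalClosure r.1.2
      show (QuotientGroup.mk (sg (r.1 : FreeGroup (Fin m)) r.2) : FreeGroup (Fin m) ⧸ N m R) =
        QuotientGroup.mk 1
      rw [QuotientGroup.mk_one, QuotientGroup.eq_one_iff]
      unfold sg
      split_ifs
      · exact hr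
      · exact (N m R).inv_mem hr
    · refine ⟨by show (0 : ℤ) ≤ 1; norm_num, fun h => ?_⟩
      have : (1 : ℤ) = 0 := h
      norm_num at this
    · refine ⟨by show (0 : ℤ) ≤ 1; norm_num, fun h => ?_⟩
      have : (1 : ℤ) = 0 := h
      norm_num at this
  | one => exact ⟨le_refl _, fun _ => rfl⟩
  | mul x y _ _ hx hy =>
    have hadd : Multiplicative.toAdd (x * y).2 = Multiplicative.toAdd x.2 + Multiplicative.toAdd y.2 :=
      rfl
    refine ⟨by rw [hadd]; linarith [hx.1, hy.1], fun h => ?_⟩
    rw [hadd] at h
    have h1 := hx.2 (by linarith [hx.1, hy.1])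
    have h2 := hy.2 (by linarith [hx.1, hy.1])
    show (QuotientGroup.mk (x.1.1 * y.1.1) : FreeGroup (Fin m) ⧸ N m R) =
      QuotientGroup.mk (x.1.2 * y.1.2)
    rw [QuotientGroup.mk_mul, QuotientGroup.mk_mul, h1, h2]

/-- the elements of `K` which lie in `P` together with their inverses -/
def U : Subgroup (FreeGroup (Fin m) × FreeGroup (Fin m)) where
  carrier := {k | ((k, 1) : G m) ∈ PM m R ∧ ((k⁻¹, 1) : G m) ∈ PM m R}
  mul_mem' := by
    rintro a b ⟨ha, ha'⟩ ⟨hb, hb'⟩
    refine ⟨?_, ?_⟩
    · have := (PM m R).mul_mem ha hb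
      simpa using this
    · have := (PM m R).mul_mem hb' ha'
      simpa using this
  one_mem' := ⟨(PM m R).one_mem, (PM m R).one_mem⟩
  inv_mem' := by
    rintro a ⟨ha, ha'⟩
    exact ⟨ha', by simpa using ha⟩

theorem diag_mem (b : FreeGroup (Fin m)) : (b, b) ∈ U m R := by
  induction b using FreeGroup.induction_on with
  | C1 => exact (U m R).one_mem
  | of i =>
    refine ⟨?_, ?_⟩
    · exact gens_mem m R (Sum.inl (Sum.inl (i, true)))
    · exact gens_mem m R (Sum.inl (Sum.inl (i, false)))
  | inv_of i ih => exact (U m R).inv_mem ih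
  | mul x y hx hy => exact (U m R).mul_mem hx hy

theorem rel_mem {n : FreeGroup (Fin m)} (hn : n ∈ N m R) : (n, 1) ∈ U m R := by
  -- the subgroup of all `n` with `(n, 1) ∈ U` is normal
  let V : Subgroup (FreeGroup (Fin m)) := (U m R).comap (MonoidHom.inl _ _)
  have hV : V.Normal := by
    refine ⟨fun n hn g => ?_⟩
    have h1 : (g, g) * (n, 1) * (g, g)⁻¹ ∈ U m R :=
      (U m R).mul_mem ((U m R).mul_mem (diag_mem m R g) hn) ((U m R).inv_mem (diag_mem m R g))
    have h2 : (g, g) * ((n, 1) : FreeGroup (Fin m) × FreeGroup (Fin m)) * (g, g)⁻¹ =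
        (g * n * g⁻¹, 1) := by simp
    rw [h2] at h1
    exact h1
  have hle : N m R ≤ V := by
    apply Subgroup.normalClosure_le_normal
    intro r hr
    exact ⟨gens_mem m R (Sum.inl (Sum.inr (⟨r, hr⟩, true))), by
      have := gens_mem m R (Sum.inl (Sum.inr (⟨r, hr⟩, false)))
      simpa [gens, sg] using this⟩
  exact hle hn

/-- The elements of level zero in `P`. -/
theorem mem_zero_iff (a b : FreeGroup (Fin m)) :
    (((a, b), 1) : G m) ∈ PM m R ↔
      (QuotientGroup.mk a : FreeGroup (Fin m) ⧸ N m R) = QuotientGroup.mk b := by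
  constructor
  · intro h
    exact (level m R _ h).2 rfl
  · intro h
    have h1 : a * b⁻¹ ∈ N m R := by
      rw [← QuotientGroup.eq_one_iff, QuotientGroup.mk_mul, h, QuotientGroup.mk_inv,
        mul_inv_cancel]
    have h2 := ((U m R).mul_mem (rel_mem m R h1) (diag_mem m R b)).1
    simpa using h2

theorem t_pow_mem (n : ℕ) : ((1, Multiplicative.ofAdd (n : ℤ)) : G m) ∈ PM m R := by
  have h := (PM m R).pow_mem (gens_mem m R (Sum.inr (Sum.inr ()))) n
  have : gens m R (Sum.inr (Sum.inr ())) ^ n = ((1, Multiplicative.ofAdd (n : ℤ)) : G m) := by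
    apply Prod.ext
    · simp [gens]
    · show (Multiplicative.ofAdd (1 : ℤ)) ^ n = Multiplicative.ofAdd (n : ℤ)
      rw [← ofAdd_nsmul, nsmul_eq_mul, mul_one]
  rwa [this] at h

theorem exists_level (a : FreeGroup (Fin m)) :
    ∃ n : ℕ, (((a, 1), Multiplicative.ofAdd (n : ℤ)) : G m) ∈ PM m R := by
  induction a using FreeGroup.induction_on with
  | C1 => exact ⟨0, (PM m R).one_mem⟩
  | of i => exact ⟨1, gens_mem m R (Sum.inr (Sum.inl (i, true)))⟩
  | inv_of i _ => exact ⟨1, gens_mem m R (Sum.inr (Sum.inl (i, false)))⟩
  | mul x y hx hy =>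
    obtain ⟨n, hn⟩ := hx
    obtain ⟨n', hn'⟩ := hy
    refine ⟨n + n', ?_⟩
    have := (PM m R).mul_mem hn hn'
    have e : (((x * y, 1), Multiplicative.ofAdd ((n + n' : ℕ) : ℤ)) : G m) =
        ((x, 1), Multiplicative.ofAdd (n : ℤ)) * ((y, 1), Multiplicative.ofAdd (n' : ℤ)) := by
      apply Prod.ext
      · apply Prod.ext
        · rfl
        · simp
      · push_cast
        rfl
    rw [e]
    exact this

theorem exists_quot (g : G m) : ∃ p ∈ PM m R, ∃ q ∈ PM m R, g = p * q⁻¹ := by
  obtain ⟨⟨a, b⟩, z⟩ := g
  obtain ⟨n, hn⟩ := exists_level m R (a * b⁻¹)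
  have h1 : (((a, b), Multiplicative.ofAdd (n : ℤ)) : G m) ∈ PM m R := by
    have := (PM m R).mul_mem hn (diag_mem m R b).1
    simpa using this
  obtain ⟨j, hj⟩ : ∃ j : ℕ, (j : ℤ) = |Multiplicative.toAdd z| := ⟨_, Int.natCast_natAbs _⟩
  obtain ⟨l, hl⟩ : ∃ l : ℕ, (l : ℤ) = n + j - Multiplicative.toAdd z := by
    refine ⟨(n + j - Multiplicative.toAdd z).toNat, ?_⟩
    rw [Int.toNat_of_nonneg]
    have := le_abs_self (Multiplicative.toAdd z)
    omega
  refine ⟨((a, b), Multiplicative.ofAdd (n : ℤ)) * (1, Multiplicative.ofAdd (j : ℤ)),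
    (PM m R).mul_mem h1 (t_pow_mem m R j), (1, Multiplicative.ofAdd (l : ℤ)), t_pow_mem m R l, ?_⟩
  apply Prod.ext
  · simp
  · show z = Multiplicative.ofAdd (n : ℤ) * Multiplicative.ofAdd (j : ℤ) *
      (Multiplicative.ofAdd (l : ℤ))⁻¹
    apply Multiplicative.toAdd.injective
    show Multiplicative.toAdd z = n + j + -(l : ℤ)
    rw [hl]; ring

/-! ### Computability -/

section Comp

variable {k : ℕ} (x : Fin k → G m)

/-- the group element of a letter -/
def letter (a : Fin k × Bool) : G m := if a.2 then x a.1 else (x a.1)⁻¹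

theorem value_coords (w : List (Fin k × Bool)) :
    (value x w).1.1 = FreeGroup.mk (w.flatMap fun a => (letter m x a).1.1.toWord) ∧
    (value x w).1.2 = FreeGroup.mk (w.flatMap fun a => (letter m x a).1.2.toWord) ∧
    Multiplicative.toAdd (value x w).2 =
      ((w.flatMap fun a => List.replicate (Multiplicative.toAdd (letter m x a).2).toNat ()).length : ℤ) -
      ((w.flatMap fun a => List.replicate (-Multiplicative.toAdd (letter m x a).2).toNat ()).length : ℤ) := by
  induction w with
  | nil => exact ⟨rfl, rfl, by simp [value]⟩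
  | cons a w ih =>
    obtain ⟨h1, h2, h3⟩ := ih
    have hv : value x (a :: w) = letter m x a * value x w := by
      simp [value, letter]
    rw [hv]
    refine ⟨?_, ?_, ?_⟩
    · rw [List.flatMap_cons, ← FreeGroup.mul_mk, ← h1, FreeGroup.mk_toWord]; rfl
    · rw [List.flatMap_cons, ← FreeGroup.mul_mk, ← h2, FreeGroup.mk_toWord]; rfl
    · show Multiplicative.toAdd (letter m x a).2 + Multiplicative.toAdd (value x w).2 = _
      rw [h3, List.flatMap_cons, List.flatMap_cons, List.length_append, List.length_append,
        List.length_replicate, List.length_replicate]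
      push_cast
      have := Int.toNat_sub_toNat_neg (Multiplicative.toAdd (letter m x a).2)
      linarith

theorem word_problem : ComputablePred (fun w : List (Fin k × Bool) => value x w = 1) := by
  have h1 : Primrec (fun w : List (Fin k × Bool) =>
      FreeGroup.reduce (w.flatMap fun a => (letter m x a).1.1.toWord)) :=
    primrec_reduce.comp (Primrec.list_flatMap Primrec.id
      ((Primrec.dom_finite (fun a : Fin k × Bool => (letter m x a).1.1.toWord)).comp Primrec.snd))
  have h2 : Primrec (fun w : List (Fin k × Bool) =>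
      FreeGroup.reduce (w.flatMap fun a => (letter m x a).1.2.toWord)) :=
    primrec_reduce.comp (Primrec.list_flatMap Primrec.id
      ((Primrec.dom_finite (fun a : Fin k × Bool => (letter m x a).1.2.toWord)).comp Primrec.snd))
  have h3 : Primrec (fun w : List (Fin k × Bool) => (w.flatMap fun a =>
      List.replicate (Multiplicative.toAdd (letter m x a).2).toNat ()).length) :=
    Primrec.list_length.comp (Primrec.list_flatMap Primrec.id
      ((Primrec.dom_finite (fun a : Fin k × Bool =>
        List.replicate (Multiplicative.toAdd (letter m x a).2).toNat ())).comp Primrec.snd))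
  have h4 : Primrec (fun w : List (Fin k × Bool) => (w.flatMap fun a =>
      List.replicate (-Multiplicative.toAdd (letter m x a).2).toNat ()).length) :=
    Primrec.list_length.comp (Primrec.list_flatMap Primrec.id
      ((Primrec.dom_finite (fun a : Fin k × Bool =>
        List.replicate (-Multiplicative.toAdd (letter m x a).2).toNat ())).comp Primrec.snd))
  have hp : PrimrecPred (fun w : List (Fin k × Bool) =>
      FreeGroup.reduce (w.flatMap fun a => (letter m x a).1.1.toWord) = [] ∧
      FreeGroup.reduce (w.flatMap fun a => (letter m x a).1.2.toWord) = [] ∧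
      (w.flatMap fun a => List.replicate (Multiplicative.toAdd (letter m x a).2).toNat ()).length =
      (w.flatMap fun a => List.replicate (-Multiplicative.toAdd (letter m x a).2).toNat ()).length) :=
    (Primrec.eq.comp h1 (Primrec.const [])).and
      ((Primrec.eq.comp h2 (Primrec.const [])).and (Primrec.eq.comp h3 h4))
  have hiff : ∀ w : List (Fin k × Bool), value x w = 1 ↔
      (FreeGroup.reduce (w.flatMap fun a => (letter m x a).1.1.toWord) = [] ∧
      FreeGroup.reduce (w.flatMap fun a => (letter m x a).1.2.toWord) = [] ∧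
      (w.flatMap fun a => List.replicate (Multiplicative.toAdd (letter m x a).2).toNat ()).length =
      (w.flatMap fun a => List.replicate (-Multiplicative.toAdd (letter m x a).2).toNat ()).length) := by
    intro w
    obtain ⟨e1, e2, e3⟩ := value_coords m x w
    rw [← mk_eq_one_iff, ← mk_eq_one_iff, ← e1, ← e2]
    constructor
    · intro h
      rw [h] at e3 ⊢
      refine ⟨rfl, rfl, ?_⟩
      have e4 : (0 : ℤ) = _ := e3
      omega
    · rintro ⟨f1, f2, f3⟩
      apply Prod.ext
      · exact Prod.ext f1 f2
      · apply Multiplicative.toAdd.injective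
        rw [e3, f3]
        simp
  obtain ⟨hd, hp⟩ := hp
  exact ComputablePred.of_eq ⟨hd, hp.to_comp⟩ fun w => (hiff w).symm

end Comp

end Main

theorem halting : ¬ ComputablePred fun n : ℕ => (Pool.Agent.Helper270.WPSource.u n).Dom := by
  intro h
  refine ComputablePred.halting_problem 0 ?_
  have hr : ManyOneReducible (fun c : Nat.Partrec.Code => (Nat.Partrec.Code.eval c 0).Dom)
      (fun n : ℕ => (Pool.Agent.Helper270.WPSource.u n).Dom) := by
    refine ⟨Encodable.encode, Computable.encode, ?_⟩
    intro c
    simp [Pool.Agent.Helper270.WPSource.u, Denumerable.ofNat_encode]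
  exact ComputablePred.computable_of_manyOneReducible hr h

/-- **The negated form of Q1.** There are a cancellative right reversible monoid `P` generated by
finitely many elements `x_0, …, x_{k-1}` and a group `G` which is its group of right quotients, such
that the word problem of `G` is decidable, but it is undecidable whether a word over
`X ∪ X⁻¹` represents an element of `P`. -/
theorem result :
    ∃ (P : Type) (_ : Monoid P) (_ : IsCancelMul P) (G : Type) (_ : Group G) (ι : P →* G)
      (k : ℕ) (x : Fin k → P),
      RightReversible P ∧ Submonoid.closure (Set.range x) = ⊤ ∧ IsGroupOfRightQuotients ι ∧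
      ComputablePred (fun w : List (Fin k × Bool) => value (fun i => ι (x i)) w = 1) ∧
      ¬ ComputablePred (fun w : List (Fin k × Bool) =>
        value (fun i => ι (x i)) w ∈ Set.range ι) := by
  classical
  obtain ⟨m, R, W, hW, hWu⟩ := Pool.Agent.Y669.TA.WPU.word_problem'
  let k := Fintype.card (Idx m R)
  let e : Idx m R ≃ Fin k := Fintype.equivFin _
  let x : Fin k → PM m R := fun i => ⟨gens m R (e.symm i), gens_mem m R _⟩
  have hcancel : IsCancelMul (PM m R) :=
    { mul_left_cancel := fun a b c h => Subtype.ext (mul_left_cancel (congrArg Subtype.val h))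
      mul_right_cancel := fun a b c h => Subtype.ext (mul_right_cancel (congrArg Subtype.val h)) }
  refine ⟨PM m R, inferInstance, hcancel, G m, inferInstance, (PM m R).subtype, k, x, ?_, ?_, ?_,
    ?_, ?_⟩
  · intro a b
    obtain ⟨p, hp, q, hq, h⟩ := exists_quot m R ((a : G m)⁻¹ * b)
    refine ⟨⟨p, hp⟩, ⟨q, hq⟩, Subtype.ext ?_⟩
    show (a : G m) * p = b * q
    have h2 : p = (a : G m)⁻¹ * b * q := by rw [h, inv_mul_cancel_right]
    rw [h2, mul_assoc, mul_inv_cancel_left]
  · -- generation
    rw [eq_top_iff]
    rintro ⟨g, hg⟩ -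
    have key : ∀ g (hg : g ∈ PM m R), (⟨g, hg⟩ : PM m R) ∈ Submonoid.closure (Set.range x) := by
      intro g hg
      induction hg using Submonoid.closure_induction with
      | mem g hg =>
        obtain ⟨i, rfl⟩ := hg
        apply Submonoid.subset_closure
        exact ⟨e i, Subtype.ext (by simp [x])⟩
      | one => exact Submonoid.one_mem _
      | mul a b ha hb iha ihb => exact Submonoid.mul_mem _ iha ihb
    exact key g hg
  · refine ⟨Subtype.val_injective, fun g => ?_⟩
    obtain ⟨p, hp, q, hq, h⟩ := exists_quot m R g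
    exact ⟨⟨p, hp⟩, ⟨q, hq⟩, h⟩
  · exact word_problem m _
  · intro hdec
    -- the word for `((x_i, 1), 0)` and its inverse
    let sub : Fin m × Bool → List (Fin k × Bool) := fun a =>
      [(e (Sum.inr (Sum.inl a)), true), (e (Sum.inr (Sum.inr ())), false)]
    have hval : ∀ w : List (Fin m × Bool),
        value (fun i => (PM m R).subtype (x i)) (w.flatMap sub) = ((FreeGroup.mk w, 1), 1) := by
      intro w
      induction w with
      | nil => rfl
      | cons a w ih =>
        have hsplit : value (fun i => (PM m R).subtype (x i)) ((a :: w).flatMap sub) =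
            value (fun i => (PM m R).subtype (x i)) (sub a) *
              value (fun i => (PM m R).subtype (x i)) (w.flatMap sub) := by
          rw [List.flatMap_cons]
          simp only [value, List.map_append, List.prod_append]
        rw [hsplit, ih]
        have hsub : value (fun i => (PM m R).subtype (x i)) (sub a) =
            ((FreeGroup.mk [a], 1), 1) := by
          have h1 : value (fun i => (PM m R).subtype (x i)) (sub a) =
              gens m R (Sum.inr (Sum.inl a)) * (gens m R (Sum.inr (Sum.inr ())))⁻¹ := by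
            simp [value, sub, x]
          rw [h1]
          apply Prod.ext
          · apply Prod.ext
            · show sg (FreeGroup.of a.1) a.2 * 1⁻¹ = FreeGroup.mk [a]
              rw [inv_one, mul_one]
              obtain ⟨i, b⟩ := a
              cases b
              · rfl
              · rfl
            · show (1 : FreeGroup (Fin m)) * 1⁻¹ = 1
              simp
          · show Multiplicative.ofAdd (1 : ℤ) * (Multiplicative.ofAdd (1 : ℤ))⁻¹ = 1
            rw [mul_inv_cancel]
        rw [hsub]
        apply Prod.ext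
        · apply Prod.ext
          · show FreeGroup.mk [a] * FreeGroup.mk w = FreeGroup.mk (a :: w)
            rw [FreeGroup.mul_mk]; rfl
          · show (1 : FreeGroup (Fin m)) * 1 = 1
            rw [mul_one]
        · show (1 : Multiplicative ℤ) * 1 = 1
          rw [mul_one]
    apply halting
    have hred : ManyOneReducible (fun n : ℕ => (Pool.Agent.Helper270.WPSource.u n).Dom)
        (fun w : List (Fin k × Bool) =>
          value (fun i => (PM m R).subtype (x i)) w ∈ Set.range (PM m R).subtype) := by
      refine ⟨fun n => (W n).flatMap sub, ?_, ?_⟩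
      · have hs : Primrec (fun w : List (Fin m × Bool) => w.flatMap sub) :=
          Primrec.list_flatMap Primrec.id ((Primrec.dom_finite sub).comp Primrec.snd)
        exact hs.to_comp.comp hW
      · intro n
        show (Pool.Agent.Helper270.WPSource.u n).Dom ↔
          value (fun i => (PM m R).subtype (x i)) ((W n).flatMap sub) ∈ Set.range (PM m R).subtype
        rw [← hWu n, hval]
        have h1 : (((FreeGroup.mk (W n), 1), 1) : G m) ∈ Set.range (PM m R).subtype ↔
            (((FreeGroup.mk (W n), 1), 1) : G m) ∈ PM m R := by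
          constructor
          · rintro ⟨p, hp⟩; rw [← hp]; exact p.2
          · intro h; exact ⟨⟨_, h⟩, rfl⟩
        rw [h1, mem_zero_iff, QuotientGroup.mk_one, QuotientGroup.eq_one_iff]
    exact ComputablePred.computable_of_manyOneReducible hred hdec

end Pool.Agent.Results.MP_91a774_al.UndecidableMembership
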